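import Pool.Agent.N91.LC.Path

set_option autoImplicit false

namespace Pool.Agent.N505.LCP

open Real Pool.Agent.N91.LC

/-! ### continuity along paths -/

theorem contb {f : ℝ → X} (hf : Pth f) : ContinuousOn (fun t => (f t).P.b) (Set.Ici 0) := by
  have : LipschitzOnWith 1 (fun t => (f t).P.b) (Set.Ici 0) := LipschitzOnWith.of_dist_le_mul (by
    intro x hx y hy; rw [NNReal.coe_one, one_mul, Real.dist_eq, Real.dist_eq]
    exact hf.pot (φ := fun x => x.P.b) X.b_lip hx hy)
  exact this.continuousOn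

theorem contv {f : ℝ → X} (hf : Pth f) : ContinuousOn (fun t => (f t).P.v) (Set.Ici 0) := by
  have : LipschitzOnWith 1 (fun t => (f t).P.v) (Set.Ici 0) := LipschitzOnWith.of_dist_le_mul (by
    intro x hx y hy; rw [NNReal.coe_one, one_mul, Real.dist_eq, Real.dist_eq]
    exact hf.pot (φ := fun x => x.P.v) X.v_lip hx hy)
  exact this.continuousOn

theorem contD {f : ℝ → X} (hf : Pth f) :
    ContinuousOn (fun t => Metric.infDist (f t) GamS) (Set.Ici 0) :=
  (Metric.continuous_infDist_pt GamS).comp_continuousOn hf.cont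

/-- first time at which a continuous function is nonpositive -/
theorem first_zero {φ : ℝ → ℝ} {a b : ℝ} (hφ : ContinuousOn φ (Set.Icc a b)) {s1 : ℝ}
    (h1 : s1 ∈ Set.Icc a b) (h2 : φ s1 ≤ 0) :
    ∃ s, a ≤ s ∧ s ≤ b ∧ φ s ≤ 0 ∧ ∀ t, a ≤ t → t < s → 0 < φ t := by
  have hcl : IsClosed (Set.Icc a b ∩ φ ⁻¹' Set.Iic 0) :=
    hφ.preimage_isClosed_of_isClosed isClosed_Icc isClosed_Iic
  have hco : IsCompact (Set.Icc a b ∩ φ ⁻¹' Set.Iic 0) :=
    isCompact_Icc.of_isClosed_subset hcl Set.inter_subset_left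
  obtain ⟨s, hs, hmin⟩ := hco.exists_isLeast ⟨s1, h1, h2⟩
  refine ⟨s, hs.1.1, hs.1.2, hs.2, ?_⟩
  intro t hat hts
  by_contra hcon
  push Not at hcon
  have := hmin (show t ∈ Set.Icc a b ∩ φ ⁻¹' Set.Iic 0 from ⟨⟨hat, hts.le.trans hs.1.2⟩, hcon⟩)
  linarith

/-- last time at which a continuous function is nonpositive -/
theorem last_zero {φ : ℝ → ℝ} {a b : ℝ} (hφ : ContinuousOn φ (Set.Icc a b)) {s1 : ℝ}
    (h1 : s1 ∈ Set.Icc a b) (h2 : φ s1 ≤ 0) :
    ∃ s, a ≤ s ∧ s ≤ b ∧ φ s ≤ 0 ∧ ∀ t, s < t → t ≤ b → 0 < φ t := by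
  have hcl : IsClosed (Set.Icc a b ∩ φ ⁻¹' Set.Iic 0) :=
    hφ.preimage_isClosed_of_isClosed isClosed_Icc isClosed_Iic
  have hco : IsCompact (Set.Icc a b ∩ φ ⁻¹' Set.Iic 0) :=
    isCompact_Icc.of_isClosed_subset hcl Set.inter_subset_left
  obtain ⟨s, hs, hmax⟩ := hco.exists_isGreatest ⟨s1, h1, h2⟩
  refine ⟨s, hs.1.1, hs.1.2, hs.2, ?_⟩
  intro t hat hts
  by_contra hcon
  push Not at hcon
  have := hmax (show t ∈ Set.Icc a b ∩ φ ⁻¹' Set.Iic 0 from ⟨⟨hs.1.1.trans hat.le, hts⟩, hcon⟩)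
  linarith

/-- at the first time the value is zero -/
theorem first_eq {φ : ℝ → ℝ} {a s : ℝ} (has : a ≤ s) (hφ : ContinuousOn φ (Set.Icc a s))
    (ha : 0 < φ a) (h : φ s ≤ 0) (hm : ∀ t, a ≤ t → t < s → 0 < φ t) : φ s = 0 ∧ a < s := by
  have hne : a < s := by
    rcases has.eq_or_lt with e | e
    · subst e; linarith
    · exact e
  refine ⟨?_, hne⟩
  obtain ⟨t, ht, h0⟩ := intermediate_value_Icc' has hφ ⟨h, ha.le⟩
  rcases ht.2.eq_or_lt with e | e
  · rw [← e]; exact h0
  · have := hm t ht.1 e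
    linarith

theorem last_eq {φ : ℝ → ℝ} {s b : ℝ} (hsb : s ≤ b) (hφ : ContinuousOn φ (Set.Icc s b))
    (hb : 0 < φ b) (h : φ s ≤ 0) (hm : ∀ t, s < t → t ≤ b → 0 < φ t) : φ s = 0 ∧ s < b := by
  have hne : s < b := by
    rcases hsb.eq_or_lt with e | e
    · subst e; linarith
    · exact e
  refine ⟨?_, hne⟩
  obtain ⟨t, ht, h0⟩ := intermediate_value_Icc hsb hφ ⟨h, hb.le⟩
  rcases ht.1.eq_or_lt with e | e
  · rw [e]; exact h0
  · have := hm t e ht.2
    linarith

/-! ### the level of the Christian -/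

theorem g_eq_of_LA (hLA : S_LA) {x y : X} (h : dist x y = 0) (hE : 0 < EE x.P) :
    x.P.g = y.P.g := by
  have h1 := hLA x y (by rw [h]; exact hE) (by rw [h]; norm_num)
  rw [h] at h1
  have h2 : log (A x.P.g) = log (A y.P.g) := by
    have := abs_nonpos_iff.1 h1; linarith
  have h3 : A x.P.g = A y.P.g := Real.log_injOn_pos (A_pos _) (A_pos _) h2
  have h4 := A_sq x.P.g
  have h5 := A_sq y.P.g
  rw [h3, h5] at h4
  have h6 : x.P.g ^ 2 = y.P.g ^ 2 := by linarith
  exact (pow_left_inj₀ x.ok.g0 y.ok.g0 (by norm_num)).1 h6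

theorem y0_P : y0.P = ⟨0, 0, GG⟩ := rfl

theorem clog (hG : S_GPATH) (hLA : S_LA) : S_CLOG := by
  intro f hf h0 T hT hT1 hE t ht htT
  have hE0 := hE 0 le_rfl hT
  have hg0 : (f 0).P.g = GG := g_eq_of_LA hLA h0 hE0
  rcases ht.eq_or_lt with rfl | ht'
  · rw [hg0]; simp
  have hno : ∀ s, 0 ≤ s → s ≤ t → 0 < Metric.infDist (f s) GamS := by
    by_contra hcon
    push Not at hcon
    obtain ⟨s1, h1, h2, h3⟩ := hcon
    have hcont : ContinuousOn (fun s => Metric.infDist (f s) GamS) (Set.Icc 0 t) :=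
      (contD hf).mono (fun x hx => hx.1)
    obtain ⟨s, hs0, hst, hs, hmin⟩ := first_zero hcont ⟨h1, h2⟩ h3
    have hs' : Metric.infDist (f s) GamS = 0 := le_antisymm hs Metric.infDist_nonneg
    obtain ⟨q, hq0, hq1, hq⟩ := touch hs'
    have hspos : 0 < s := by
      rcases hs0.eq_or_lt with e | e
      · exfalso
        rw [← e] at hq
        have hd : dist y0 (gamX q) = 0 := by
          apply le_antisymm _ dist_nonneg
          have := dist_triangle y0 (f 0) (gamX q)
          rw [dist_comm y0 (f 0), h0, hq] at this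
          linarith
        have hb := X.b_lip y0 (gamX q)
        rw [hd, gamX_P hq0 hq1, y0_P] at hb
        have hb2 : (0:ℝ) - (binf - q / 3) = 0 := abs_nonpos_iff.1 hb
        have := binf_lo
        unfold q0 at hq1
        norm_num at *
        linarith
      · exact e
    have hgp := (hG f hf 0 s le_rfl hspos (fun t' h h' => hE t' h (h'.trans (hst.trans htT)))
      (fun t' h h' => hmin t' h.le h')).2
    rw [hg0, sub_zero] at hgp
    have hgs : (f s).P.g = (gam q).g := by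
      have := g_eq_of_LA hLA hq (hE s hs0 (hst.trans htT))
      rw [gamX_P hq0 hq1] at this
      exact this
    have hsq := gam_g_sq hq0
    have hq3 := exp_q_hi hq0 hq1
    have hgn := gam_g_nonneg q
    have he : exp s ≤ exp 1 := exp_le_exp.2 (hst.trans (htT.trans hT1))
    have he1 := Real.exp_one_lt_d9
    have hGG := GG_gt
    rw [hgs] at hgp
    have h5 : (gam q).g ≤ 0.02 := by nlinarith
    have h6 : exp s * (gam q).g ≤ 3 * 0.02 := by
      apply mul_le_mul (by linarith) h5 hgn (by norm_num)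
    norm_num at *
    linarith
  have hgp := (hG f hf 0 t le_rfl ht' (fun t' h h' => hE t' h (h'.trans htT))
      (fun t' h h' => hno t' h.le h'.le)).2
  rw [hg0, sub_zero] at hgp
  rw [exp_neg]
  have he := exp_pos t
  calc GG * (exp t)⁻¹ ≤ (exp t * (f t).P.g) * (exp t)⁻¹ := by gcongr
    _ = (f t).P.g := by field_simp

/-! ### constancy of v -/

theorem vconst : S_VCONST := by
  intro f hf u v hu huv hb
  have hcont : ContinuousOn (fun t => (f t).P.v) (Set.Icc u v) :=
    (contv hf).mono (fun x hx => hu.trans hx.1)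
  have hpre : IsPreconnected ((fun t => (f t).P.v) '' Set.Icc u v) :=
    isPreconnected_Icc.image _ hcont
  have hsub : ((fun t => (f t).P.v) '' Set.Icc u v) ⊆ {0} ∪ Set.range pp := by
    rintro _ ⟨t, ht, rfl⟩
    rcases (f t).ok.comb with h | h | ⟨n, h⟩
    · exact absurd h (hb t ht.1 ht.2).ne'
    · left; exact h
    · right; exact ⟨n, h.symm⟩
  have hcount : ((fun t => (f t).P.v) '' Set.Icc u v).Countable :=
    ((Set.countable_singleton _).union (Set.countable_range pp)).mono hsub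
  have hss := hcount.isTotallyDisconnected _ (subset_refl _) hpre
  exact hss ⟨u, ⟨le_rfl, huv⟩, rfl⟩ ⟨v, ⟨huv, le_rfl⟩, rfl⟩

/-! ### the walks of the Lion at a constant level -/

theorem gamX_eq {q : ℝ} (h0 : 0 ≤ q) (h1 : q ≤ q0) : gamX q = mkc (gam q) (gam_ok h0 h1) := by
  unfold gamX
  congr 1
  rw [min_eq_left h1, max_eq_right h0]

theorem vb (bw x : ℝ) : max 0 (min (x - bw) p0) - max (bw - x) 0 = min (x - bw) p0 := by
  have hp := p0_pos
  rcases le_total x bw with h | h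
  · rw [min_eq_left (by linarith), max_eq_left (by linarith), max_eq_left (by linarith)]
    ring
  · rw [max_eq_right (a := bw - x) (by linarith), max_eq_right (le_min (by linarith) hp.le)]
    ring

theorem sd_k2 (bw x y : ℝ) :
    |max (bw - x) 0 - max (bw - y) 0| +
      |max 0 (min (x - bw) p0) - max 0 (min (y - bw) p0)| ≤ |x - y| := by
  wlog h : x ≤ y generalizing x y with H
  · have := H y x (le_of_not_ge h)
    rw [abs_sub_comm (max (bw - x) 0), abs_sub_comm (max 0 (min (x - bw) p0)), abs_sub_comm x]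
    exact this
  have h1 : max (bw - y) 0 ≤ max (bw - x) 0 := max_le_max (by linarith) le_rfl
  have h2 : max 0 (min (x - bw) p0) ≤ max 0 (min (y - bw) p0) :=
    max_le_max le_rfl (min_le_min (by linarith) le_rfl)
  rw [abs_of_nonneg (by linarith), abs_of_nonpos (by linarith), abs_of_nonpos (by linarith)]
  have e1 := vb bw x
  have e2 := vb bw y
  have h3 : min (y - bw) p0 - min (x - bw) p0 ≤ y - x := by
    have := abs_min_le (y - bw) (x - bw) p0
    have h4 := le_abs_self (min (y - bw) p0 - min (x - bw) p0)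
    have h5 : |y - bw - (x - bw)| = y - x := by
      rw [show y - bw - (x - bw) = y - x by ring]; exact abs_of_nonneg (by linarith)
    linarith
  linarith

theorem k2_ok {bw gw lam s : ℝ} (hb : bw ≤ ell) (hg0 : 0 ≤ gw) (hg1 : gw ≤ GG) (hl : 0 < lam)
    (hs : 0 ≤ s) :
    (⟨max (bw - s / lam) 0, max 0 (min (s / lam - bw) p0), gw⟩ : Pt).ok := by
  have hp := p0_pos
  have hsl : 0 ≤ s / lam := by positivity
  refine ⟨le_max_right _ _, max_le (by linarith) ell_pos.le, le_max_left _ _,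
    max_le hp.le (min_le_right _ _), hg0, hg1, ?_⟩
  rcases le_total (s / lam) bw with h | h
  · right; left
    exact max_eq_left ((min_le_left _ _).trans (by linarith))
  · left
    exact max_eq_right (by linarith)

theorem k2_pth {bw gw lam : ℝ} (hb : bw ≤ ell) (hg0 : 0 ≤ gw) (hg1 : gw ≤ GG) (hl : 0 < lam)
    (hlg : 1 + gw ^ 2 = lam) :
    Pth (fun s => pt (max (bw - s / lam) 0) (max 0 (min (s / lam - bw) p0)) gw) := by
  intro s t hs ht
  show dist (pt _ _ _) (pt _ _ _) ≤ _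
  rw [pt_eq (k2_ok hb hg0 hg1 hl hs), pt_eq (k2_ok hb hg0 hg1 hl ht)]
  refine (level_dist (k2_ok hb hg0 hg1 hl hs) (k2_ok hb hg0 hg1 hl ht) rfl).trans ?_
  show (1 + gw ^ 2) * (|max (bw - s / lam) 0 - max (bw - t / lam) 0| +
      |max 0 (min (s / lam - bw) p0) - max 0 (min (t / lam - bw) p0)|) ≤ _
  rw [hlg]
  calc lam * _ ≤ lam * |s / lam - t / lam| := by
        apply mul_le_mul_of_nonneg_left (sd_k2 _ _ _) hl.le
    _ = |s - t| := by
        rw [← sub_div, abs_div, abs_of_pos hl]; field_simp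

theorem k3_ok {gw lam s : ℝ} (k : ℕ) (hg0 : 0 ≤ gw) (hg1 : gw ≤ GG) (hl : 0 < lam)
    (hs : 0 ≤ s) : (⟨min (s / lam) ell, pp k, gw⟩ : Pt).ok := by
  have hsl : 0 ≤ s / lam := by positivity
  exact ⟨le_min hsl ell_pos.le, min_le_right _ _, (pp_pos k).le, pp_le k, hg0, hg1,
    Or.inr (Or.inr ⟨k, rfl⟩)⟩

theorem k3_pth {gw lam : ℝ} (k : ℕ) (hg0 : 0 ≤ gw) (hg1 : gw ≤ GG) (hl : 0 < lam)
    (hlg : 1 + gw ^ 2 = lam) : Pth (fun s => pt (min (s / lam) ell) (pp k) gw) := by
  intro s t hs ht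
  show dist (pt _ _ _) (pt _ _ _) ≤ _
  rw [pt_eq (k3_ok k hg0 hg1 hl hs), pt_eq (k3_ok k hg0 hg1 hl ht)]
  refine (level_dist (k3_ok k hg0 hg1 hl hs) (k3_ok k hg0 hg1 hl ht) rfl).trans ?_
  show (1 + gw ^ 2) * (|min (s / lam) ell - min (t / lam) ell| + |pp k - pp k|) ≤ _
  rw [hlg, sub_self, abs_zero, add_zero]
  calc lam * _ ≤ lam * |s / lam - t / lam| := by
        apply mul_le_mul_of_nonneg_left (abs_min_le _ _ _) hl.le
    _ = |s - t| := by
        rw [← sub_div, abs_div, abs_of_pos hl]; field_simp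

/-! ### estimates for the Christian -/

theorem EE_y0 : EE y0.P = RR := by
  rw [y0_P, RR_eq]; unfold EE; simp

theorem chr_EE {f : ℝ → X} (hf : Pth f) (h0 : dist (f 0) y0 = 0) {t : ℝ} (ht : 0 ≤ t) :
    RR - t ≤ EE (f t).P := by
  have h1 := X.EE_lip (f t) y0
  rw [EE_y0] at h1
  have h2 := dist_triangle (f t) (f 0) y0
  have h3 := hf t 0 ht le_rfl
  rw [sub_zero, abs_of_nonneg ht] at h3
  have h4 := neg_abs_le (EE (f t).P - RR)
  linarith

theorem chr_b {f : ℝ → X} (hf : Pth f) (h0 : dist (f 0) y0 = 0) {t : ℝ} (ht : 0 ≤ t) :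
    (f t).P.b ≤ t := by
  have h1 := X.b_lip (f t) y0
  rw [y0_P] at h1
  have h2 := dist_triangle (f t) (f 0) y0
  have h3 := hf t 0 ht le_rfl
  rw [sub_zero, abs_of_nonneg ht] at h3
  have h4 := le_abs_self ((f t).P.b - 0)
  simp only at h1
  linarith

/-- GG exp(-t) is large for small t -/
theorem GG_exp {t : ℝ} (ht : t ≤ 0.1) : 0.6 < GG * exp (-t) := by
  have h1 := GG_gt
  have h2 := Real.add_one_le_exp (-t)
  have h3 : (0.9 : ℝ) ≤ exp (-t) := by norm_num at *; linarith
  norm_num at *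
  nlinarith

/-! ### phase 1 -/

theorem phase1 (hP : S_FNP) (hG : S_GPATH) (hLA : S_LA) (hW : S_WINDOW) : S_PHASE1 := by
  intro F hF
  obtain ⟨hF1, hF2⟩ := hF
  have hCL := clog hG hLA
  have hx0 : dist (gamX 0) x0 = 0 := dist_self _
  obtain ⟨hc0, hc00⟩ := hF1 gamX gamX_pth hx0
  obtain ⟨w, hw0, hw1, hwin⟩ := hW (F gamX) hc0 hc00
  have hw1' : w ≤ 1 / 10000 := hw1
  have hp0 : p0 = 1 / 10000 := rfl
  have hell : ell = 1 / 100 := rfl
  have hR0 := RR_lo
  have hR1 := RR_hi
  have hbi0 := binf_lo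
  have hbi1 := binf_hi
  have hbiR : binf = RR - ell := rfl
  obtain ⟨lam, hlam⟩ : ∃ lam, lam = exp (2 * w) := ⟨_, rfl⟩
  obtain ⟨gw, hgw⟩ : ∃ gw, gw = (gam w).g := ⟨_, rfl⟩
  obtain ⟨bw, hbw⟩ : ∃ bw, bw = binf - w / 3 := ⟨_, rfl⟩
  have hgsq : gw ^ 2 = lam - 1 := by rw [hgw, hlam]; exact gam_g_sq hw0.le
  have hlam1 : lam ≤ 1 + 2 * w + 4 * w ^ 2 := by
    rw [hlam]
    have := exp_upper (x := 2 * w) (by linarith) (by linarith)
    nlinarith
  have hlam0 : 1 + 2 * w ≤ lam := by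
    rw [hlam]; have := Real.add_one_le_exp (2 * w); linarith
  have hlam2 : lam ≤ 1.0003 := by rw [hlam]; exact exp_q_hi hw0.le hw1
  have hlampos : 0 < lam := by linarith
  have hgwn : 0 ≤ gw := by rw [hgw]; exact gam_g_nonneg w
  have hgw0 : 0 < gw := by
    rcases hgwn.eq_or_lt with e | e
    · exfalso; rw [← e] at hgsq; norm_num at hgsq; linarith
    · exact e
  have hgw1 : gw ≤ 0.02 := by
    by_contra hcon
    push Not at hcon
    norm_num at *
    nlinarith
  have hgwG : gw ≤ GG := by have := GG_gt; norm_num at *; linarith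
  have hbw0 : 0.0048 < bw := by rw [hbw]; norm_num at *; linarith
  have hbw1 : bw ≤ 0.00494 := by rw [hbw]; norm_num at *; linarith
  have hbwpos : 0 < bw := by norm_num at *; linarith
  have hbwell : bw < ell := by rw [hell]; norm_num at *; linarith
  -- the path l1
  obtain ⟨K2, hK2⟩ : ∃ K2 : ℝ → X, K2 =
    fun s => pt (max (bw - s / lam) 0) (max 0 (min (s / lam - bw) p0)) gw := ⟨_, rfl⟩
  have hK2p : Pth K2 := by
    rw [hK2]; exact k2_pth hbwell.le hgwn hgwG hlampos (by linarith)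
  have hK20 : K2 0 = gamX w := by
    rw [hK2, gamX_eq hw0.le hw1]
    show pt _ _ _ = _
    rw [pt_eq (k2_ok hbwell.le hgwn hgwG hlampos le_rfl)]
    congr 1
    ext
    · show max (bw - 0 / lam) 0 = binf - w / 3
      rw [zero_div, sub_zero, max_eq_left hbwpos.le, hbw]
    · show max 0 (min (0 / lam - bw) p0) = 0
      rw [zero_div, zero_sub]
      exact max_eq_left ((min_le_left _ _).trans (by linarith))
    · exact hgw
  obtain ⟨l1, hl1⟩ : ∃ l1 : ℝ → X, l1 = fun t => if t ≤ w then gamX t else K2 (t - w) := ⟨_, rfl⟩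
  have hl1p : Pth l1 := by
    rw [hl1]; exact glue_pth hw0.le gamX_pth hK2p (by rw [hK20, dist_self])
  have hl1w : ∀ t, t ≤ w → l1 t = gamX t := by
    intro t ht; rw [hl1]; exact if_pos ht
  have hl10 : dist (l1 0) x0 = 0 := by rw [hl1w 0 hw0.le]; exact hx0
  have hl1P : ∀ t, w ≤ t →
      l1 t = pt (max (bw - (t - w) / lam) 0) (max 0 (min ((t - w) / lam - bw) p0)) gw := by
    intro t ht
    have e1 : l1 t = K2 (t - w) := by
      rcases ht.eq_or_lt with e | e
      · rw [← e, sub_self, hK20, hl1w w le_rfl]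
      · rw [hl1]; exact if_neg (not_le.2 e)
    rw [e1, hK2]
  have hl1PP : ∀ t, w ≤ t →
      (l1 t).P = ⟨max (bw - (t - w) / lam) 0, max 0 (min ((t - w) / lam - bw) p0), gw⟩ := by
    intro t ht
    rw [hl1P t ht, pt_eq (k2_ok hbwell.le hgwn hgwG hlampos (by linarith))]
    rfl
  obtain ⟨hc1, hc10⟩ := hF1 l1 hl1p hl10
  have hc1w : F gamX w = F l1 w :=
    hF2 gamX l1 gamX_pth hx0 hl1p hl10 w hw0.le
      (fun s h h' => by rw [hl1w s h', dist_self]) w hw0.le le_rfl
  -- times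
  obtain ⟨t3, ht3⟩ : ∃ t3, t3 = w + lam * bw := ⟨_, rfl⟩
  obtain ⟨te, hte⟩ : ∃ te, te = t3 + lam * p0 := ⟨_, rfl⟩
  have hlb : 0 < lam * bw := mul_pos hlampos hbwpos
  have hlb1 : lam * bw ≤ 1.0003 * 0.00494 :=
    mul_le_mul hlam2 hbw1 hbwpos.le (by norm_num)
  have hlp : 0 < lam * p0 := mul_pos hlampos p0_pos
  have hlp1 : lam * p0 ≤ 1.0003 * (1 / 10000) := by
    rw [hp0]; exact mul_le_mul_of_nonneg_right hlam2 (by norm_num)
  have hwt3 : w < t3 := by linarith
  have ht3e : t3 ≤ te := by linarith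
  have hte1 : te ≤ 0.0053 := by norm_num at *; linarith
  have ht30 : 0 ≤ t3 := by linarith
  have hE1 : ∀ t, 0 ≤ t → t ≤ te → 0 < EE (F l1 t).P := by
    intro t h0 h1
    have := chr_EE hc1 hc10 h0
    norm_num at *
    linarith
  have hg1 : ∀ t, 0 ≤ t → t ≤ te → gw < (F l1 t).P.g := by
    intro t h0 h1
    have h2 := hCL (F l1) hc1 hc10 te (by linarith) (by norm_num at *; linarith) hE1 t h0 h1
    have h3 := GG_exp (t := t) (by norm_num at *; linarith)
    norm_num at *
    linarith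
  have hσ3 : (t3 - w) / lam = bw := by rw [ht3]; field_simp; ring
  have hσe : (te - w) / lam - bw = p0 := by rw [hte, ht3]; field_simp; ring
  -- the intermediate value theorem for v
  have hφc : ContinuousOn (fun t => (F l1 t).P.v - (l1 t).P.v) (Set.Icc t3 te) :=
    ((contv hc1).sub (contv hl1p)).mono (fun x hx => ht30.trans hx.1)
  have hφ0 : (0:ℝ) ∈ Set.Icc ((F l1 te).P.v - (l1 te).P.v) ((F l1 t3).P.v - (l1 t3).P.v) := by
    constructor
    · rw [hl1PP te (by linarith)]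
      show (F l1 te).P.v - max 0 (min ((te - w) / lam - bw) p0) ≤ 0
      rw [hσe, min_self, max_eq_right p0_pos.le]
      linarith [(F l1 te).ok.v1]
    · rw [hl1PP t3 hwt3.le]
      show 0 ≤ (F l1 t3).P.v - max 0 (min ((t3 - w) / lam - bw) p0)
      rw [hσ3, sub_self, min_eq_left p0_pos.le, max_self]
      linarith [(F l1 t3).ok.v0]
  obtain ⟨t4, ⟨h4a, h4b⟩, h4⟩ := intermediate_value_Icc' ht3e hφc hφ0
  have h4v : (F l1 t4).P.v = (l1 t4).P.v := by
    have : (F l1 t4).P.v - (l1 t4).P.v = 0 := h4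
    linarith
  have hwt4 : w < t4 := by linarith
  have h40 : 0 ≤ t4 := by linarith
  have hσ4 : bw ≤ (t4 - w) / lam := by
    rw [← hσ3]; gcongr
  have hσ4' : (t4 - w) / lam - bw ≤ p0 := by
    rw [← hσe]; gcongr
  have hV4 : max 0 (min ((t4 - w) / lam - bw) p0) = (t4 - w) / lam - bw := by
    rw [min_eq_left hσ4', max_eq_right (by linarith)]
  have hB4 : max (bw - (t4 - w) / lam) 0 = 0 := max_eq_right (by linarith)
  have hl14v : (l1 t4).P.v = (t4 - w) / lam - bw := by
    rw [hl1PP t4 hwt4.le]; exact hV4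
  have hl14b : (l1 t4).P.b = 0 := by
    rw [hl1PP t4 hwt4.le]; exact hB4
  rcases (F l1 t4).ok.b0.eq_or_lt with hb0 | hbpos
  · -- aligned on the spine
    refine ⟨l1, t4, _, _, gw, (F l1 t4).P.g, hl1p, hl10, h40, hl1P t4 hwt4.le, ?_, hgw0,
      hg1 t4 h40 h4b, ?_⟩
    · ext
      · show (F l1 t4).P.b = max (bw - (t4 - w) / lam) 0
        rw [hB4, ← hb0]
      · show (F l1 t4).P.v = max 0 (min ((t4 - w) / lam - bw) p0)
        rw [hV4, h4v, hl14v]
      · rfl
    · rw [hB4]; exact ell_pos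
  rcases (F l1 t4).ok.comb with hb | hv | ⟨k, hk⟩
  · exact absurd hb hbpos.ne'
  · -- the Christian is in the limit tooth
    have ht43 : t4 = t3 := by
      apply le_antisymm _ h4a
      have : (t4 - w) / lam = (t3 - w) / lam := by
        rw [hσ3]; rw [h4v, hl14v] at hv; linarith
      have := (div_left_inj' hlampos.ne').1 this
      linarith
    rw [ht43] at hbpos hv
    have hl13b : (l1 t3).P.b = 0 := by rw [← ht43]; exact hl14b
    have hψc : ContinuousOn (fun t => (F l1 t).P.b - (l1 t).P.b) (Set.Ici 0) :=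
      (contb hc1).sub (contb hl1p)
    have hψw : (F l1 w).P.b - (l1 w).P.b ≤ 0 := by
      have h1 := chr_b hc1 hc10 hw0.le
      rw [hl1PP w le_rfl]
      show (F l1 w).P.b - max (bw - (w - w) / lam) 0 ≤ 0
      rw [sub_self, zero_div, sub_zero, max_eq_left hbwpos.le]
      norm_num at *
      linarith
    obtain ⟨ta, hta0, hta1, hta2, hta3⟩ :=
      last_zero (hψc.mono (fun x (hx : x ∈ Set.Icc w t3) => hw0.le.trans hx.1))
        (s1 := w) ⟨le_rfl, hwt3.le⟩ hψw
    obtain ⟨hta4, hta5⟩ := last_eq hta1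
      (hψc.mono (fun x (hx : x ∈ Set.Icc ta t3) => (hw0.le.trans hta0).trans hx.1))
      (by show 0 < (F l1 t3).P.b - (l1 t3).P.b
          rw [hl13b]; linarith) hta2 hta3
    have hta4' : (F l1 ta).P.b = (l1 ta).P.b := by
      have : (F l1 ta).P.b - (l1 ta).P.b = 0 := hta4
      linarith
    have hσa : (ta - w) / lam < bw := by
      rw [← hσ3]; gcongr
    have hBa : max (bw - (ta - w) / lam) 0 = bw - (ta - w) / lam := max_eq_left (by linarith)
    have hVa : max 0 (min ((ta - w) / lam - bw) p0) = 0 :=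
      max_eq_left ((min_le_left _ _).trans (by linarith))
    have hlab : (l1 ta).P.b = bw - (ta - w) / lam := by rw [hl1PP ta hta0]; exact hBa
    have hσa0 : 0 ≤ (ta - w) / lam := div_nonneg (by linarith) hlampos.le
    have hbb : ∀ t, ta ≤ t → t ≤ t3 → 0 < (F l1 t).P.b := by
      intro t h1 h2
      rcases h1.eq_or_lt with e | e
      · rw [← e, hta4', hlab]; linarith
      · have h3 : 0 < (F l1 t).P.b - (l1 t).P.b := hta3 t e h2
        linarith [(l1 t).ok.b0]
    have hva := vconst (F l1) hc1 ta t3 (hw0.le.trans hta0) hta1 hbb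
    refine ⟨l1, ta, _, _, gw, (F l1 ta).P.g, hl1p, hl10, hw0.le.trans hta0, hl1P ta hta0, ?_, hgw0,
      hg1 ta (hw0.le.trans hta0) (hta1.trans ht3e), ?_⟩
    · ext
      · show (F l1 ta).P.b = max (bw - (ta - w) / lam) 0
        rw [hBa, hta4', hlab]
      · show (F l1 ta).P.v = max 0 (min ((ta - w) / lam - bw) p0)
        rw [hVa, hva, hv]
      · rfl
    · rw [hBa]; linarith
  · -- the Christian is in the tooth k
    have hσk : (t4 - w) / lam - bw = pp k := by rw [← hl14v, ← h4v, hk]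
    have ht4 : t4 = w + lam * (bw + pp k) := by
      have : (t4 - w) / lam = bw + pp k := by linarith
      rw [div_eq_iff hlampos.ne'] at this
      linarith
    obtain ⟨K3, hK3⟩ : ∃ K3 : ℝ → X, K3 = fun s => pt (min (s / lam) ell) (pp k) gw := ⟨_, rfl⟩
    have hK3p : Pth K3 := by
      rw [hK3]; exact k3_pth k hgwn hgwG hlampos (by linarith)
    have hK30 : K3 0 = l1 t4 := by
      rw [hK3, hl1P t4 hwt4.le, hV4, hB4, hσk]
      show pt (min (0 / lam) ell) _ _ = _
      rw [zero_div, min_eq_left ell_pos.le]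
    obtain ⟨l2, hl2⟩ : ∃ l2 : ℝ → X, l2 = fun t => if t ≤ t4 then l1 t else K3 (t - t4) := ⟨_, rfl⟩
    have hl2p : Pth l2 := by
      rw [hl2]; exact glue_pth h40 hl1p hK3p (by rw [hK30, dist_self])
    have hl2w : ∀ t, t ≤ t4 → l2 t = l1 t := by
      intro t ht; rw [hl2]; exact if_pos ht
    have hl20 : dist (l2 0) x0 = 0 := by rw [hl2w 0 h40]; exact hl10
    have hl2P : ∀ t, t4 ≤ t → l2 t = pt (min ((t - t4) / lam) ell) (pp k) gw := by
      intro t ht
      have e1 : l2 t = K3 (t - t4) := by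
        rcases ht.eq_or_lt with e | e
        · rw [← e, sub_self, hK30, hl2w t4 le_rfl]
        · rw [hl2]; exact if_neg (not_le.2 e)
      rw [e1, hK3]
    have hl2PP : ∀ t, t4 ≤ t → (l2 t).P = ⟨min ((t - t4) / lam) ell, pp k, gw⟩ := by
      intro t ht
      rw [hl2P t ht, pt_eq (k3_ok k hgwn hgwG hlampos (by linarith))]
      rfl
    obtain ⟨hc2, hc20⟩ := hF1 l2 hl2p hl20
    have hc2e : ∀ s, 0 ≤ s → s ≤ t4 → F l1 s = F l2 s := fun s hs0 hs1 =>
      hF2 l1 l2 hl1p hl10 hl2p hl20 t4 h40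
        (fun s h h' => by rw [hl2w s h', dist_self]) s hs0 hs1
    obtain ⟨t6, ht6⟩ : ∃ t6, t6 = t4 + lam * ell := ⟨_, rfl⟩
    have hpk0 := pp_pos k
    have hpk1 := pp_le k
    have hle : 0 < lam * ell := mul_pos hlampos ell_pos
    have ht46 : t4 < t6 := by linarith
    have ht6w : t6 - w = lam * (RR + pp k - w / 3) := by
      rw [ht6, ht4, hbw, hbiR]; ring
    have hS1 : RR + pp k ≤ 0.01504 := by norm_num at *; linarith
    have hS0 : 0 ≤ RR + pp k := by norm_num at *; linarith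
    have hkey : t6 - w ≤ RR + pp k - 0.3 * w := by
      rw [ht6w]
      have h1 : (lam - 1) * (RR + pp k) ≤ (2.0004 * w) * 0.01504 := by
        apply mul_le_mul _ hS1 hS0 (by norm_num at *; linarith)
        have : w ^ 2 ≤ w * (1 / 10000) := by nlinarith
        norm_num at *
        linarith
      have h2 : 0 ≤ (lam - 1) * w := mul_nonneg (by linarith) hw0.le
      norm_num at *
      nlinarith
    have ht6b : t6 ≤ 0.0152 := by norm_num at *; linarith
    have hFk : ∀ t, w ≤ t → t ≤ t6 → 0 < Fn k (F l2 t).P := by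
      intro t h1 h2
      have h3 := hP k (F l2) hc2 t w (by linarith) hw0.le
      have h4 := hwin k
      rw [hc1w, hc2e w hw0.le hwt4.le] at h4
      rw [abs_of_nonneg (show 0 ≤ t - w by linarith)] at h3
      have h5 := neg_abs_le (Fn k (F l2 t).P - Fn k (F l2 w).P)
      norm_num at *
      linarith
    have hψc : ContinuousOn (fun t => (F l2 t).P.b - (l2 t).P.b) (Set.Ici 0) :=
      (contb hc2).sub (contb hl2p)
    have hψ6 : (F l2 t6).P.b - (l2 t6).P.b ≤ 0 := by
      rw [hl2PP t6 ht46.le]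
      show (F l2 t6).P.b - min ((t6 - t4) / lam) ell ≤ 0
      have : (t6 - t4) / lam = ell := by rw [ht6]; field_simp; ring
      rw [this, min_self]
      linarith [(F l2 t6).ok.b1]
    have hψ4 : 0 < (F l2 t4).P.b - (l2 t4).P.b := by
      rw [← hc2e t4 h40 le_rfl, hl2w t4 le_rfl, hl14b]
      linarith
    obtain ⟨ta, hta0, hta1, hta2, hta3⟩ :=
      first_zero (hψc.mono (fun x (hx : x ∈ Set.Icc t4 t6) => h40.trans hx.1))
        (s1 := t6) ⟨ht46.le, le_rfl⟩ hψ6
    obtain ⟨hta4, hta5⟩ := first_eq hta0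
      (hψc.mono (fun x (hx : x ∈ Set.Icc t4 ta) => h40.trans hx.1)) hψ4 hta2 hta3
    have hta4' : (F l2 ta).P.b = (l2 ta).P.b := by
      have : (F l2 ta).P.b - (l2 ta).P.b = 0 := hta4
      linarith
    have hlab : (l2 ta).P.b = min ((ta - t4) / lam) ell := by rw [hl2PP ta hta0]
    have hlab0 : 0 < (l2 ta).P.b := by
      rw [hlab]; exact lt_min (div_pos (by linarith) hlampos) ell_pos
    have hbb : ∀ t, t4 ≤ t → t ≤ ta → 0 < (F l2 t).P.b := by
      intro t h1 h2
      rcases h2.eq_or_lt with e | e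
      · rw [e, hta4']; exact hlab0
      · have h3 : 0 < (F l2 t).P.b - (l2 t).P.b := hta3 t h1 e
        linarith [(l2 t).ok.b0]
    have hvv : ∀ t, t4 ≤ t → t ≤ ta → (F l2 t).P.v = pp k := by
      intro t h1 h2
      have := vconst (F l2) hc2 t4 t h40 h1 (fun s h h' => hbb s h (h'.trans h2))
      rw [← this, ← hc2e t4 h40 le_rfl, hk]
    have hEt : ∀ t, t4 ≤ t → t ≤ ta → 0 < EE (F l2 t).P := by
      intro t h1 h2
      have h3 := hFk t (by linarith) (by linarith)
      unfold Fn Dn at h3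
      rw [if_pos (hvv t h1 h2)] at h3
      exact lt_of_lt_of_le h3 (min_le_left _ _)
    have hta00 : 0 ≤ ta := by linarith
    have hEE : ∀ t, 0 ≤ t → t ≤ ta → 0 < EE (F l2 t).P := by
      intro t h1 h2
      rcases le_total t t4 with h | h
      · rw [← hc2e t h1 h]; exact hE1 t h1 (h.trans h4b)
      · exact hEt t h h2
    have hga : gw < (F l2 ta).P.g := by
      have h2 := hCL (F l2) hc2 hc20 ta hta00 (by norm_num at *; linarith) hEE ta hta00 le_rfl
      have h3 := GG_exp (t := ta) (by norm_num at *; linarith)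
      norm_num at *
      linarith
    refine ⟨l2, ta, _, _, gw, (F l2 ta).P.g, hl2p, hl20, hta00, hl2P ta hta0, ?_, hgw0, hga, ?_⟩
    · ext
      · show (F l2 ta).P.b = min ((ta - t4) / lam) ell
        rw [hta4', hlab]
      · show (F l2 ta).P.v = pp k
        exact hvv ta hta0 le_rfl
      · rfl
    · rw [← hlab, ← hta4']
      apply lt_of_le_of_ne (F l2 ta).ok.b1
      intro e
      have h3 := hEt ta hta0 le_rfl
      unfold EE at h3
      rw [e, sub_self, th_zero_right] at h3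
      exact lt_irrefl _ h3

end Pool.Agent.N505.LCP
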